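import Pool.Agent.NDR.StmtsG
import Pool.Agent.Helper77_NDR.KAD

/-!
# Squad NDR, block G, row KRM: removing one element of positive degree
-/

set_option autoImplicit false

namespace Pool.Agent.NDR.H34

open Finset
open Pool.Agent.NDR.H77K (kd_def c0 c1 kd_out kd_in kd_zero_of_chn kd_add kd_mul)

section
open Classical

variable {ι K : Type} [Field K]

theorem coeff_cut (Q : Set (ι → ℤ)) (h : Lr K ι) (m : ι → ℤ) :
    (cut Q h).coeff m = if m ∈ Q then h.coeff m else 0 := by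
  unfold cut
  exact Finsupp.filter_apply _ _ _

theorem cut_add (Q : Set (ι → ℤ)) (g h : Lr K ι) : cut Q (g + h) = cut Q g + cut Q h := by
  apply AddMonoidAlgebra.ext
  ext m
  rw [AddMonoidAlgebra.coeff_add, Finsupp.add_apply, coeff_cut, coeff_cut, coeff_cut,
    AddMonoidAlgebra.coeff_add, Finsupp.add_apply]
  by_cases hm : m ∈ Q
  · simp [hm]
  · simp [hm]

theorem cut_zero (Q : Set (ι → ℤ)) : cut Q (0 : Lr K ι) = 0 := by
  apply AddMonoidAlgebra.ext
  ext m
  rw [coeff_cut]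
  simp

/-- `cut` as an additive map -/
noncomputable def cutA (Q : Set (ι → ℤ)) : Lr K ι →+ Lr K ι where
  toFun := cut Q
  map_zero' := cut_zero Q
  map_add' := cut_add Q

theorem cut_zsmul (Q : Set (ι → ℤ)) (z : ℤ) (h : Lr K ι) : cut Q (z • h) = z • cut Q h :=
  map_zsmul (cutA Q) z h

theorem cut_sum (Q : Set (ι → ℤ)) {J : Type} (s : Finset J) (f : J → Lr K ι) :
    cut Q (∑ k ∈ s, f k) = ∑ k ∈ s, cut Q (f k) :=
  map_sum (cutA Q) f s

theorem cut_id (Q : Set (ι → ℤ)) {h : Lr K ι} (hh : h ∈ MS K Q) : cut Q h = h := by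
  apply AddMonoidAlgebra.ext
  ext m
  rw [coeff_cut]
  by_cases hm : m ∈ Q
  · rw [if_pos hm]
  · rw [if_neg hm]
    by_contra hc
    exact hm (hh m (fun h0 => hc h0.symm))

theorem cut_kill (Q : Set (ι → ℤ)) {h : Lr K ι} (hh : h ∈ MS K Qᶜ) : cut Q h = 0 := by
  apply AddMonoidAlgebra.ext
  ext m
  rw [coeff_cut]
  by_cases hm : m ∈ Q
  · rw [if_pos hm]
    by_contra hc
    exact hh m hc hm
  · rw [if_neg hm]
    rfl

theorem cut_mem (Q : Set (ι → ℤ)) (h : Lr K ι) : cut Q h ∈ MS K Q := by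
  intro m hm
  rw [coeff_cut] at hm
  by_contra hc
  rw [if_neg hc] at hm
  exact hm rfl

theorem cut_mem' (Q Q' : Set (ι → ℤ)) {h : Lr K ι} (hh : h ∈ MS K Q') : cut Q h ∈ MS K Q' := by
  intro m hm
  apply hh m
  intro h0
  rw [coeff_cut, h0] at hm
  simp at hm

theorem cut_split (Q : Set (ι → ℤ)) (h : Lr K ι) : h = cut Q h + cut Qᶜ h := by
  apply AddMonoidAlgebra.ext
  ext m
  rw [AddMonoidAlgebra.coeff_add, Finsupp.add_apply, coeff_cut, coeff_cut]
  by_cases hm : m ∈ Q
  · simp [hm]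
  · simp [hm]

theorem mul_MS {Q Q' : Set (ι → ℤ)} {b h : Lr K ι}
    (hb : ∀ m, b.coeff m ≠ 0 → ∀ e ∈ Q', e + m ∈ Q) (hh : h ∈ MS K Q') : b * h ∈ MS K Q := by
  intro m hm
  have h1 : m ∈ (b * h).coeff.support := Finsupp.mem_support_iff.mpr hm
  have h2 := AddMonoidAlgebra.support_coeff_mul_subset b h h1
  rw [Finset.mem_add] at h2
  obtain ⟨p, hp, q, hq, hpq⟩ := h2
  rw [← hpq, add_comm]
  exact hb p (Finsupp.mem_support_iff.mp hp) q (hh q (Finsupp.mem_support_iff.mp hq))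

theorem cut_mul {Q Q' : Set (ι → ℤ)} {b : Lr K ι} (h : Lr K ι)
    (hb : ∀ m, b.coeff m ≠ 0 → ∀ e, e ∈ Q' ↔ e + m ∈ Q) : cut Q (b * h) = b * cut Q' h := by
  have h1 : b * cut Q' h ∈ MS K Q := mul_MS (fun m hm e he => (hb m hm e).mp he) (cut_mem Q' h)
  have h2 : b * cut Q'ᶜ h ∈ MS K Qᶜ :=
    mul_MS (fun m hm e (he : e ∈ Q'ᶜ) (hc : e + m ∈ Q) => he ((hb m hm e).mpr hc))
      (cut_mem Q'ᶜ h)
  calc cut Q (b * h) = cut Q (b * (cut Q' h + cut Q'ᶜ h)) := by rw [← cut_split]
    _ = cut Q (b * cut Q' h) + cut Q (b * cut Q'ᶜ h) := by rw [mul_add, cut_add]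
    _ = b * cut Q' h := by rw [cut_id Q h1, cut_kill Q h2, add_zero]

theorem kd_cut {T : Type} {Q Q' : Set (ι → ℤ)} (a : T → Lr K ι) (S : Finset T)
    (ha : ∀ t ∈ S, ∀ m, (a t).coeff m ≠ 0 → ∀ e, e ∈ Q' ↔ e + m ∈ Q) (y : Finset T → Lr K ι)
    (U : Finset T) : kd a S (fun V => cut Q' (y V)) U = cut Q (kd a S y U) := by
  rw [kd_def, kd_def, cut_sum]
  refine Finset.sum_congr rfl fun k hk => ?_
  rw [cut_zsmul, cut_mul (Q' := Q') _ (ha k (Finset.mem_sdiff.mp hk).1)]

theorem pr_add [Fintype ι] (κ : ι → ℤ) (e m : ι → ℤ) : pr κ (e + m) = pr κ e + pr κ m := by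
  unfold pr
  rw [← Finset.sum_add_distrib]
  refine Finset.sum_congr rfl fun i _ => ?_
  simp only [Pi.add_apply]
  push_cast
  ring

theorem kd_zero_fun {T : Type} (a : T → Lr K ι) (S : Finset T) (U : Finset T) :
    kd a S (fun _ => 0) U = 0 := by
  rw [kd_def]
  refine Finset.sum_eq_zero fun k _ => ?_
  rw [mul_zero, smul_zero]

theorem kd_ins {T : Type} (a : T → Lr K ι) (S : Finset T) (j : T) (hj : j ∉ S)
    (N : AddSubgroup (Lr K ι)) (i : ℕ) (x : Finset T → Lr K ι) (hx : Chn S N i x)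
    (U : Finset T) : kd a (insert j S) x U = kd a S x U := by
  rw [kd_def, kd_def]
  symm
  apply Finset.sum_subset (Finset.sdiff_subset_sdiff (Finset.subset_insert j S) (le_refl U))
  intro k hk hk'
  have hkj : k = j := by
    rw [Finset.mem_sdiff, Finset.mem_insert] at hk
    rcases hk with ⟨h1 | h1, h2⟩
    · exact h1
    · exact absurd (Finset.mem_sdiff.mpr ⟨h1, h2⟩) hk'
  have h0 : x (insert k U) = 0 := by
    by_contra h
    have := ((hx _).2 h).1 (Finset.mem_insert_self k U)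
    rw [hkj] at this
    exact hj this
  rw [h0, mul_zero, smul_zero]

/-- the induction -/
theorem krm_main {T : Type} [Fintype ι] (hsg : ∀ (j k : T) (U : Finset T), j ≠ k → j ∉ U →
      k ∉ U → sg j (insert k U) * sg k U = - (sg k (insert j U) * sg j U))
    (κ : ι → ℤ) (N δ₀ : ℤ)
    (Q : Set (ι → ℤ)) (a : T → Lr K ι) (S : Finset T) (j : T) (n : ℕ) (hN : 0 < N)
    (hj : j ∉ S)
    (ha : ∀ t ∈ insert j S, ∀ m, (a t).coeff m ≠ 0 → pr κ m = N ∧ ∀ e ∈ Q, e + m ∈ Q)
    (hQ : ∀ e ∈ Q, δ₀ ≤ pr κ e) (hex : ∀ i, n ≤ i → ExP a (insert j S) (MS K Q) ⊥ i) (m : ℕ) :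
    ∀ i, n ≤ i → ∀ x, Chn S (MS K Q) i x → (∀ U, x U ∈ MS K {e | pr κ e < δ₀ + m}) →
      (∀ U, kd a S x U = 0) → ∃ y, Chn S (MS K Q) (i + 1) y ∧ ∀ U, x U = kd a S y U := by
  induction m with
  | zero =>
    intro i _ x hx hxb _
    refine ⟨fun _ => 0, fun U => ⟨zero_mem _, fun h => absurd rfl h⟩, fun U => ?_⟩
    rw [kd_zero_fun]
    apply AddMonoidAlgebra.ext
    ext e
    by_contra hc
    have h1 := (hx U).1 e hc
    have h2 : pr κ e < δ₀ + ((0 : ℕ) : ℤ) := hxb U e hc
    have h3 := hQ e h1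
    simp at h2
    linarith
  | succ m ih =>
    intro i hi x hx hxb hkx
    set B : Set (ι → ℤ) := {e | pr κ e < δ₀ + ((m + 1 : ℕ) : ℤ)} with hB
    set B' : Set (ι → ℤ) := {e | pr κ e < δ₀ + ((m + 1 : ℕ) : ℤ) - N} with hB'
    have hBB : ∀ t ∈ insert j S, ∀ m', (a t).coeff m' ≠ 0 → ∀ e, e ∈ B' ↔ e + m' ∈ B := by
      intro t ht m' hm' e
      have h1 := (ha t ht m' hm').1
      change pr κ e < δ₀ + ((m + 1 : ℕ) : ℤ) - N ↔ pr κ (e + m') < δ₀ + ((m + 1 : ℕ) : ℤ)
      rw [pr_add, h1]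
      constructor
      · intro h
        linarith
      · intro h
        linarith
    have hxi : Chn (insert j S) (MS K Q) i x := fun U =>
      ⟨(hx U).1, fun h => ⟨((hx U).2 h).1.trans (Finset.subset_insert j S), ((hx U).2 h).2⟩⟩
    obtain ⟨y, hy, hxy⟩ := hex i hi x hxi (fun U => by
      rw [kd_ins a S j hj (MS K Q) i x hx U, hkx U]
      exact zero_mem _)
    have hxy' : ∀ U, x U = kd a (insert j S) y U := fun U => by
      have := hxy U
      rw [AddSubgroup.mem_bot] at this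
      exact sub_eq_zero.mp this
    have hsub : ∀ U : Finset T, j ∉ U → U ⊆ insert j S → U ⊆ S := by
      intro U hU h k hk
      rcases Finset.mem_insert.mp (h hk) with h1 | h1
      · exact absurd (h1 ▸ hk) hU
      · exact h1
    have hy0 : Chn S (MS K Q) (i + 1) (c0 j y) := by
      intro U
      unfold c0
      by_cases hU : j ∈ U
      · rw [if_pos hU]
        exact ⟨zero_mem _, fun h => absurd rfl h⟩
      · rw [if_neg hU]
        exact ⟨(hy U).1, fun h => ⟨hsub U hU ((hy U).2 h).1, ((hy U).2 h).2⟩⟩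
    have hy1 : Chn S (MS K Q) i (c1 j y) := by
      intro U
      unfold c1
      by_cases hU : j ∈ U
      · rw [if_pos hU]
        exact ⟨zero_mem _, fun h => absurd rfl h⟩
      · rw [if_neg hU]
        refine ⟨AddSubgroup.zsmul_mem _ (hy _).1 _, fun h => ?_⟩
        have h1 : y (insert j U) ≠ 0 := by
          intro h0
          apply h
          rw [h0, smul_zero]
        obtain ⟨h2, h3⟩ := (hy _).2 h1
        refine ⟨hsub U hU ((Finset.subset_insert j U).trans h2), ?_⟩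
        rw [Finset.card_insert_of_notMem hU] at h3
        omega
    have hx0 : ∀ U, j ∈ U → x U = 0 := by
      intro U hU
      by_contra h
      exact hj (((hx U).2 h).1 hU)
    have e1 : ∀ U, x U = kd a S (c0 j y) U + a j * c1 j y U := by
      intro U
      by_cases hU : j ∈ U
      · rw [hx0 U hU, kd_zero_of_chn a S j hj (MS K Q) (i + 1) _ hy0 U hU]
        have h1 : c1 j y U = 0 := by
          unfold c1
          rw [if_pos hU]
        rw [h1, mul_zero, add_zero]
      · rw [hxy' U, kd_out a S j hj y U hU]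
    have e2 : ∀ U, kd a S (c1 j y) U = 0 := by
      intro U
      by_cases hU : j ∈ U
      · exact kd_zero_of_chn a S j hj (MS K Q) i _ hy1 U hU
      · have h1 := kd_in hsg a S j hj y U hU
        rw [← hxy' (insert j U), hx0 _ (Finset.mem_insert_self j U), smul_zero] at h1
        exact neg_eq_zero.mp h1.symm
    have hz1 : Chn S (MS K Q) i (fun U => cut B' (c1 j y U)) := by
      intro U
      refine ⟨cut_mem' _ _ (hy1 U).1, fun h => (hy1 U).2 fun h0 => h ?_⟩
      change cut B' (c1 j y U) = 0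
      rw [h0, cut_zero]
    obtain ⟨w, hw, hzw⟩ := ih i hi _ hz1 (fun U e he => by
      have h1 : pr κ e < δ₀ + ((m + 1 : ℕ) : ℤ) - N := cut_mem B' (c1 j y U) e he
      change pr κ e < δ₀ + (m : ℤ)
      push_cast at h1
      linarith) (fun U => by
      rw [kd_cut (Q := B) a S (fun t ht => hBB t (Finset.mem_insert_of_mem ht)), e2, cut_zero])
    have haj : ∀ r ∈ MS K Q, a j * r ∈ MS K Q := fun r hr =>
      mul_MS (fun m' hm' => (ha j (Finset.mem_insert_self j S) m' hm').2) hr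
    refine ⟨fun U => cut B' (c0 j y U) + a j * w U, fun U => ⟨?_, fun h => ?_⟩, fun U => ?_⟩
    · exact add_mem (cut_mem' _ _ (hy0 U).1) (haj _ (hw U).1)
    · by_cases h0 : c0 j y U = 0
      · refine (hw U).2 fun h1 => h ?_
        change cut B' (c0 j y U) + a j * w U = 0
        rw [h0, h1, cut_zero, mul_zero, add_zero]
      · exact (hy0 U).2 h0
    · rw [kd_add a S (fun V => cut B' (c0 j y V)) (fun V => a j * w V) U, kd_mul,
        ← hzw U, kd_cut (Q := B) a S (fun t ht => hBB t (Finset.mem_insert_of_mem ht)),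
        ← cut_mul (Q := B) _ (hBB j (Finset.mem_insert_self j S)), ← cut_add, ← e1 U,
        cut_id B (hxb U)]

end

/-- **Row KRM** -/
theorem krm (h1 : KsgStmt) : KrmStmt := by
  intro T ι K iF dT iK
  have hdT : dT = (fun a b => Classical.propDecidable (a = b)) := Subsingleton.elim _ _
  subst hdT
  intro κ N δ₀ Q a S j n hN hj ha hQ hex i hi x hx hkx
  have hsg := (@h1 T (Lr K ι) (fun a b => Classical.propDecidable (a = b)) _).1
  -- a bound for the degrees
  classical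
  set F : Finset (ι → ℤ) := S.powerset.biUnion fun U => (x U).coeff.support with hF
  obtain ⟨M, hM⟩ := (F.image (fun e => pr κ e)).bddAbove
  have hMF : ∀ e ∈ F, pr κ e ≤ M := fun e he => hM (by
    rw [Finset.mem_coe, Finset.mem_image]
    exact ⟨e, he, rfl⟩)
  obtain ⟨y, hy, hxy⟩ := krm_main hsg κ N δ₀ Q a S j n hN hj ha hQ hex ((M + 1 - δ₀).toNat)
    i hi x hx (fun U e he => by
      have hU : U ⊆ S := ((hx U).2 (by
        intro h0
        rw [h0] at he
        exact he rfl)).1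
      have he' : e ∈ F := by
        rw [hF, Finset.mem_biUnion]
        exact ⟨U, Finset.mem_powerset.mpr hU, Finsupp.mem_support_iff.mpr he⟩
      have h2 := hMF e he'
      have h3 := Int.self_le_toNat (M + 1 - δ₀)
      change pr κ e < δ₀ + ((M + 1 - δ₀).toNat : ℤ)
      linarith) (fun U => by
      have := hkx U
      rwa [AddSubgroup.mem_bot] at this)
  refine ⟨y, hy, fun U => ?_⟩
  rw [AddSubgroup.mem_bot, sub_eq_zero]
  exact hxy U

end Pool.Agent.NDR.H34
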